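import Pool.Agent.Helper73.RF.GoalsB

/-!
# Project RF, packet P2: the pinching improves
-/

set_option autoImplicit false

open Finset

namespace Pool.Agent.Helper79.RF

open Pool.Agent.Helper73.RF

/-- composition with a smooth function: first derivatives and the heat operator -/
lemma comp_el {T : ℝ} (F : FBD T) (hB : F.Base) (φ : ℝ → ℝ) (U : Set ℝ) (hU : IsOpen U)
    (hφ : ContDiffOn ℝ ((⊤ : ℕ∞) : WithTop ℕ∞) φ U) (f : F.B) (hf : ∀ z t, F.ev z t f ∈ U) :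
    ∃ g : F.B, (∀ z t, F.ev z t g = φ (F.ev z t f))
      ∧ (∀ z t a, F.ev z t (F.H a g) = deriv φ (F.ev z t f) * F.ev z t (F.H a f))
      ∧ (∀ z t, F.ev z t (F.D g) = deriv φ (F.ev z t f) * F.ev z t (F.D f))
      ∧ (∀ z t, F.ev z t (F.Hop g) = deriv φ (F.ev z t f) * F.ev z t (F.Hop f)
          - deriv (deriv φ) (F.ev z t f) * F.ev z t (F.gg f f)) := by
  have hφ' : ContDiffOn ℝ ((⊤ : ℕ∞) : WithTop ℕ∞) (deriv φ) U :=
    hφ.deriv_of_isOpen hU (by simp)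
  obtain ⟨g, hg⟩ := hB.comp φ U hU hφ f hf
  obtain ⟨g1, hg1⟩ := hB.comp (deriv φ) U hU hφ' f hf
  have hc := hB.chain φ U hU hφ f g hf hg
  have hc1 := hB.chain (deriv φ) U hU hφ' f g1 hf hg1
  have hH : ∀ a, F.H a g = g1 * F.H a f := by
    intro a
    apply hB.ext
    intro z t
    rw [(hc z t).1 a, map_mul, hg1 z t]
  refine ⟨g, hg, fun z t a => (hc z t).1 a, fun z t => (hc z t).2.2, ?_⟩
  intro z t
  have hL : F.Lap g = ∑ a, (g1 * F.H a (F.H a f) + F.H a f * F.H a g1) := by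
    unfold FBD.Lap
    refine Finset.sum_congr rfl fun a _ => ?_
    rw [hH a, Derivation.leibniz, smul_eq_mul, smul_eq_mul]
  unfold FBD.Hop
  rw [map_sub, (hc z t).2.2, hL]
  unfold FBD.Lap FBD.gg
  simp only [map_sub, map_add, map_mul, Fin.sum_univ_three, (hc1 z t).1, hg1 z t]
  ring

lemma real_key {s q c κ : ℝ} (hs : 0 < s) (hκ : 0 < κ) (hq : 0 ≤ q)
    (h0 : 0 ≤ (1 - 3 * κ) * s) (h1 : q ≤ 2 / 3 * ((1 - 3 * κ) * s) ^ 2)
    (h2 : 6 * c ^ 2 ≤ q ^ 3) :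
    s * (8 * c) - 4 / 3 * s ^ 2 * q - 2 * q ^ 2 + 3 * κ ^ 2 * (4 / 3 * s ^ 2 * q + q ^ 2)
      ≤ -6 * κ ^ 2 * s ^ 2 * q := by
  obtain ⟨r, hr0, hr⟩ : ∃ r : ℝ, 0 ≤ r ∧ q = 2 / 3 * r ^ 2 := by
    refine ⟨Real.sqrt (3 * q / 2), Real.sqrt_nonneg _, ?_⟩
    rw [Real.sq_sqrt (by positivity)]
    ring
  have hr1 : r ≤ (1 - 3 * κ) * s := by
    apply le_of_sq_le_sq _ h0
    rw [hr] at h1
    linarith
  have hc : c ≤ 2 / 9 * r ^ 3 := by
    apply le_of_sq_le_sq _ (by positivity)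
    rw [hr] at h2
    nlinarith [h2]
  have h3 : 3 * κ * s ≤ s - r := by linarith
  have h4 : (3 * κ * s) ^ 2 ≤ (s - r) ^ 2 := by
    apply pow_le_pow_left₀ (by positivity) h3
  have h5 : r ≤ s := by nlinarith [mul_pos hκ hs]
  have h6 : r ^ 2 ≤ s ^ 2 := pow_le_pow_left₀ hr0 h5 2
  have h7 : s * (8 * c) ≤ s * (8 * (2 / 9 * r ^ 3)) := by
    apply mul_le_mul_of_nonneg_left _ hs.le
    linarith
  have h8 : r ^ 2 * (3 * κ * s) ^ 2 ≤ r ^ 2 * (s - r) ^ 2 :=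
    mul_le_mul_of_nonneg_left h4 (by positivity)
  have h9 : κ ^ 2 * r ^ 2 * r ^ 2 ≤ κ ^ 2 * r ^ 2 * s ^ 2 :=
    mul_le_mul_of_nonneg_left h6 (by positivity)
  rw [hr]
  nlinarith [h7, h8, h9]

lemma real_fin {S W τ t Q p D c κ : ℝ} (hS : 0 < S) (hW : 0 < W) (hτ : 0 < τ) (ht : 0 < t)
    (hQ : 0 < Q) (hp : 0 ≤ p) (hκ : 0 < κ) (hk : 3 * κ ≤ 1)
    (hbia : ((2 - 3 * κ ^ 2) * (Q / S)) ^ 2 * p ≤ 4 * Q * D)
    (hkey : S * (8 * c) - 4 / 3 * S ^ 2 * Q - 2 * Q ^ 2 + 3 * κ ^ 2 * (4 / 3 * S ^ 2 * Q + Q ^ 2)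
      ≤ -6 * κ ^ 2 * S ^ 2 * Q) (hts : 1 < t * S) :
    0 < -(τ * (Q * (-(2 - 3 * κ ^ 2) * (W / S) * (S ^ 2 + (Q + 1 / 3 * S ^ 2))
        - (2 - 3 * κ ^ 2) * (3 - 3 * κ ^ 2) * (W / S ^ 2) * p)
        + W * (-(2 * D) + 4 / 3 * (S * Q) + 8 * c)
        - 2 * (-((2 - 3 * κ ^ 2) ^ 2 * (Q * W / S ^ 2)) * p))
      + Q * W * (3 * κ ^ 2 * (τ / t))) := by
  set X : ℝ := Q * p / S ^ 2 with hX
  set Y : ℝ := Q / S with hY
  set u : ℝ := 1 / t with hu
  have hX0 : 0 ≤ X := by positivity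
  have hu1 : u < S := by
    rw [hu, div_lt_iff₀ ht]; linarith
  have h1 : (2 - 3 * κ ^ 2) ^ 2 * X ≤ 4 * D := by
    have h2 : ((2 - 3 * κ ^ 2) * Y) ^ 2 * p = Q * ((2 - 3 * κ ^ 2) ^ 2 * X) := by
      rw [hX, hY]; field_simp
    rw [h2] at hbia
    have h3 : Q * ((2 - 3 * κ ^ 2) ^ 2 * X) ≤ Q * (4 * D) := by linarith
    exact le_of_mul_le_mul_left h3 hQ
  have h2 : 8 * c - 4 / 3 * S * Q - 2 * (Q * Y) + 3 * κ ^ 2 * (4 / 3 * S * Q + Q * Y)
      ≤ -6 * κ ^ 2 * S * Q := by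
    apply le_of_mul_le_mul_left _ hS
    have h3 : S * (8 * c - 4 / 3 * S * Q - 2 * (Q * Y) + 3 * κ ^ 2 * (4 / 3 * S * Q + Q * Y))
        = S * (8 * c) - 4 / 3 * S ^ 2 * Q - 2 * Q ^ 2
          + 3 * κ ^ 2 * (4 / 3 * S ^ 2 * Q + Q ^ 2) := by
      rw [hY]; field_simp
    rw [h3]
    linarith
  have hg : 0 ≤ 2 - 3 * κ ^ 2 := by nlinarith
  have h4 : (2 - 3 * κ ^ 2) * (2 - 3 * κ ^ 2 - 2) * X ≤ 0 := by
    apply mul_nonpos_of_nonpos_of_nonneg _ hX0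
    apply mul_nonpos_of_nonneg_of_nonpos hg
    nlinarith
  have h5 : 3 * κ ^ 2 * Q * u < 3 * κ ^ 2 * Q * S := by
    apply mul_lt_mul_of_pos_left hu1 (by positivity)
  have h6 : 0 < κ ^ 2 * Q * S := by positivity
  have hB : -(2 - 3 * κ ^ 2) * (4 / 3 * S * Q + Q * Y)
      - (2 - 3 * κ ^ 2) * (3 - 3 * κ ^ 2) * X - 2 * D + 4 / 3 * (S * Q) + 8 * c
      + 2 * (2 - 3 * κ ^ 2) ^ 2 * X + 3 * κ ^ 2 * Q * u < 0 := by
    nlinarith [h1, h2, h4, h5, h6]
  have hfin : -(τ * (Q * (-(2 - 3 * κ ^ 2) * (W / S) * (S ^ 2 + (Q + 1 / 3 * S ^ 2))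
        - (2 - 3 * κ ^ 2) * (3 - 3 * κ ^ 2) * (W / S ^ 2) * p)
        + W * (-(2 * D) + 4 / 3 * (S * Q) + 8 * c)
        - 2 * (-((2 - 3 * κ ^ 2) ^ 2 * (Q * W / S ^ 2)) * p))
      + Q * W * (3 * κ ^ 2 * (τ / t)))
      = (τ * W) * (-(-(2 - 3 * κ ^ 2) * (4 / 3 * S * Q + Q * Y)
      - (2 - 3 * κ ^ 2) * (3 - 3 * κ ^ 2) * X - 2 * D + 4 / 3 * (S * Q) + 8 * c
      + 2 * (2 - 3 * κ ^ 2) ^ 2 * X + 3 * κ ^ 2 * Q * u)) := by
    rw [hX, hY, hu]
    field_simp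
    ring
  rw [hfin]
  apply mul_pos (mul_pos hτ hW)
  linarith

/-- powers on the positive half line -/
lemma cd_pow (a : ℝ) : ContDiffOn ℝ ((⊤ : ℕ∞) : WithTop ℕ∞) (fun x : ℝ => x ^ a)
    (Set.Ioi (0 : ℝ)) := by
  intro x hx
  exact (Real.contDiffAt_rpow_const_of_ne (ne_of_gt hx)).contDiffWithinAt

lemma d_pow (a : ℝ) {x : ℝ} (_hx : 0 < x) : deriv (fun x : ℝ => x ^ a) x = a * x ^ (a - 1) := by
  rw [Real.deriv_rpow_const]

lemma dd_pow (a : ℝ) {x : ℝ} (hx : 0 < x) :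
    deriv (deriv (fun x : ℝ => x ^ a)) x = a * ((a - 1) * x ^ (a - 2)) := by
  have h1 : deriv (fun x : ℝ => x ^ a) =ᶠ[nhds x] fun y => a * y ^ (a - 1) := by
    filter_upwards [isOpen_Ioi.mem_nhds hx] with y hy
    exact d_pow a hy
  rw [h1.deriv_eq, deriv_const_mul _ (Real.differentiableAt_rpow_const_of_ne _ hx.ne'),
    d_pow (a - 1) hx]
  ring_nf

theorem p2 (hMp2 : Mp2Stmt) (hEvs : EvsStmt) (hBia : BiaStmt) (hPq : PqStmt) (hPrd : PrdStmt)
    (hBdd : BddStmt) : P2Stmt := by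
  intro T F hF hRF κ s0 hκ hs0 hM hs hpin
  have hB : F.Base := hF.toBase
  have hspos : ∀ z t, 0 < F.ev z t F.s := fun z t => lt_of_lt_of_le hs0 (hs z t)
  have htpos : ∀ t : TI T, 0 < (t : ℝ) := fun t => t.2.1
  obtain ⟨e1, e2, -, -, -, -, -⟩ := hEvs T F hF hRF
  -- the elements
  obtain ⟨w, hw, hwH, hwD, hwHop⟩ := comp_el F hB (fun x : ℝ => x ^ (-(2 - 3 * κ ^ 2)))
    (Set.Ioi 0) isOpen_Ioi (cd_pow _) F.s (fun z t => hspos z t)
  obtain ⟨τ, hτ, hτH, hτD, hτHop⟩ := comp_el F hB (fun x : ℝ => x ^ (3 * κ ^ 2))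
    (Set.Ioi 0) isOpen_Ioi (cd_pow _) F.tt (fun z t => by
      rw [hB.tt_ev]; exact htpos t)
  have hτev : ∀ z t, F.ev z t τ = (t : ℝ) ^ (3 * κ ^ 2) := by
    intro z t
    rw [hτ, hB.tt_ev]
  have hτH0 : ∀ a, F.H a τ = 0 := by
    intro a
    apply hB.ext
    intro z t
    rw [hτH, hB.tt_H, map_zero, mul_zero]
  have hτHop1 : ∀ z t, F.ev z t (F.Hop τ) = 3 * κ ^ 2 * (t : ℝ) ^ (3 * κ ^ 2 - 1) := by
    intro z t
    unfold FBD.Hop FBD.Lap
    simp only [hτH0, map_zero, Finset.sum_const_zero, sub_zero]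
    rw [hτD, hB.tt_ev, hB.tt_D, map_one, mul_one, d_pow _ (htpos t)]
  have hw1 : ∀ z t, F.ev z t w = F.ev z t F.s ^ (-(2 - 3 * κ ^ 2)) := fun z t => hw z t
  have hwpos : ∀ z t, 0 < F.ev z t w := fun z t => by
    rw [hw1]; exact Real.rpow_pos_of_pos (hspos z t) _
  have hτpos : ∀ z t, 0 < F.ev z t τ := fun z t => by
    rw [hτev]; exact Real.rpow_pos_of_pos (htpos t) _
  -- pinching
  have hpq := hPq T F hF κ hκ.le hpin (fun z t => (hspos z t).le)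
  -- powers of s in terms of w
  have hsm1 : ∀ z t, F.ev z t F.s ^ (-(2 - 3 * κ ^ 2) - 1) = F.ev z t w / F.ev z t F.s := by
    intro z t
    rw [Real.rpow_sub_one (hspos z t).ne', hw1]
  have hsm2 : ∀ z t, F.ev z t F.s ^ (-(2 - 3 * κ ^ 2) - 2)
      = F.ev z t w / F.ev z t F.s ^ 2 := by
    intro z t
    have h := Real.rpow_sub (hspos z t) (-(2 - 3 * κ ^ 2)) 2
    rw [h, hw1]
    norm_num
  have hwH1 : ∀ z t a, F.ev z t (F.H a w)
      = -(2 - 3 * κ ^ 2) * (F.ev z t w / F.ev z t F.s) * F.ev z t (F.H a F.s) := by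
    intro z t a
    rw [hwH, d_pow _ (hspos z t), hsm1]
  have hwHop1 : ∀ z t, F.ev z t (F.Hop w)
      = -(2 - 3 * κ ^ 2) * (F.ev z t w / F.ev z t F.s)
          * (F.ev z t F.s ^ 2 + F.ev z t F.n2)
        - (2 - 3 * κ ^ 2) * (3 - 3 * κ ^ 2) * (F.ev z t w / F.ev z t F.s ^ 2)
          * F.ev z t (F.gg F.s F.s) := by
    intro z t
    rw [hwHop, d_pow _ (hspos z t), dd_pow _ (hspos z t), hsm1, hsm2, e1, map_add, map_pow]
    ring
  have hpqq : ∀ z t, F.ev z t F.q ≤ F.ev z t F.n2 := by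
    intro z t
    unfold FBD.q
    rw [map_sub, map_smul, map_pow, smul_eq_mul]
    nlinarith [sq_nonneg (F.ev z t F.s)]
  have hq0 : ∀ z t, 0 ≤ F.ev z t F.q := fun z t => (hBia T F hF hRF z t).2.2.2.2.2.1
  have hn2q : ∀ z t, F.ev z t F.n2 = F.ev z t F.q + 1 / 3 * F.ev z t F.s ^ 2 := by
    intro z t
    unfold FBD.q
    rw [map_sub, map_smul, map_pow, smul_eq_mul]
    ring
  have hσ : 0 < 3 * κ ^ 2 := by positivity
  -- near time zero
  have hnear : ∃ δ > 0, ∀ z (t : TI T), (0 : ℝ) < t → (t : ℝ) < 0 + δ →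
      0 < F.ev z t (1 - τ * (F.q * w)) := by
    obtain ⟨-, -, hb, -⟩ := hBdd T F hB
    have hmm : ∀ i j, F.Bd0 (F.M i j ^ 2) := fun i j => by
      rw [pow_two]; exact (hb _ _ (hM i j) (hM i j)).2.2.1
    have hn2 : F.Bd0 F.n2 := by
      unfold FBD.n2
      simp only [Fin.sum_univ_three]
      refine (hb _ _ (hb _ _ ?_ ?_).1 ?_).1
      · exact (hb _ _ (hb _ _ (hmm _ _) (hmm _ _)).1 (hmm _ _)).1
      · exact (hb _ _ (hb _ _ (hmm _ _) (hmm _ _)).1 (hmm _ _)).1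
      · exact (hb _ _ (hb _ _ (hmm _ _) (hmm _ _)).1 (hmm _ _)).1
    obtain ⟨C, t0, ht0, -, hC⟩ := hn2
    set A : ℝ := (|C| + 1) * s0 ^ (-(2 - 3 * κ ^ 2)) with hA
    have hApos : 0 < A := by
      have := Real.rpow_pos_of_pos hs0 (-(2 - 3 * κ ^ 2))
      positivity
    have hκ3 : ∀ (z : F.Z) (t : TI T), κ ≤ 1 / 3 := by
      intro z t
      have h := (hpq z t).2.1
      by_contra hcon
      push Not at hcon
      have : (1 - 3 * κ) * F.ev z t F.s < 0 := mul_neg_of_neg_of_pos (by linarith) (hspos z t)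
      linarith
    refine ⟨min t0 ((1 / A) ^ (1 / (3 * κ ^ 2))), lt_min ht0 (by positivity), ?_⟩
    intro z t htp ht
    rw [zero_add] at ht
    have ht1 : (t : ℝ) < t0 := lt_of_lt_of_le ht (min_le_left _ _)
    have ht2 : (t : ℝ) < (1 / A) ^ (1 / (3 * κ ^ 2)) := lt_of_lt_of_le ht (min_le_right _ _)
    have h3 : (t : ℝ) ^ (3 * κ ^ 2) < 1 / A := by
      have h := Real.rpow_lt_rpow htp.le ht2 hσ
      rwa [← Real.rpow_mul (by positivity), one_div_mul_cancel hσ.ne', Real.rpow_one] at h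
    have hqC : F.ev z t F.q ≤ |C| + 1 := by
      have h1 := hC z t ht1
      have h2 := le_abs_self (F.ev z t F.n2)
      have h4 := le_abs_self C
      linarith [hpqq z t]
    have hwb : F.ev z t w ≤ s0 ^ (-(2 - 3 * κ ^ 2)) := by
      rw [hw1]
      apply Real.rpow_le_rpow_of_nonpos hs0 (hs z t)
      have := hκ3 z t
      nlinarith
    have hqw : F.ev z t F.q * F.ev z t w ≤ A :=
      mul_le_mul hqC hwb (hwpos z t).le (by positivity)
    rw [map_sub, map_one, map_mul, map_mul, hτev]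
    have h5 : (t : ℝ) ^ (3 * κ ^ 2) * (F.ev z t F.q * F.ev z t w) ≤ (t : ℝ) ^ (3 * κ ^ 2) * A :=
      mul_le_mul_of_nonneg_left hqw (Real.rpow_nonneg htp.le _)
    have h6 : (t : ℝ) ^ (3 * κ ^ 2) * A < 1 := by
      rwa [lt_div_iff₀ hApos] at h3
    linarith
  -- touching points
  have htouch : ∀ z (t : TI T), F.ev z t (1 - τ * (F.q * w)) = 0 →
      (∀ z', 0 ≤ F.ev z' t (1 - τ * (F.q * w))) → 0 < F.ev z t (F.Hop (1 - τ * (F.q * w))) := by
    intro z t h0 hmin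
    have hm := hB.min1 (1 - τ * (F.q * w)) z t (fun z' => by rw [h0]; exact hmin z')
    have hS := hspos z t
    have hW := hwpos z t
    have hTau := hτpos z t
    have ht := htpos t
    have hQ0 := hq0 z t
    have hF0 : F.ev z t τ * (F.ev z t F.q * F.ev z t w) = 1 := by
      rw [map_sub, map_one, map_mul, map_mul] at h0
      linarith
    have hQ : 0 < F.ev z t F.q := by
      rcases hQ0.lt_or_eq with h | h
      · exact h
      · rw [← h] at hF0; simp at hF0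
    -- gradient of q
    have hHq : ∀ a, F.ev z t (F.H a F.q)
        = (2 - 3 * κ ^ 2) * (F.ev z t F.q / F.ev z t F.s) * F.ev z t (F.H a F.s) := by
      intro a
      have h1 := (hm a).1
      rw [map_sub, Derivation.map_one_eq_zero, Derivation.leibniz, Derivation.leibniz, hτH0 a]
        at h1
      simp only [smul_eq_mul, mul_zero, add_zero, zero_sub, map_neg, map_mul, map_add] at h1
      have h2 : F.ev z t F.q * F.ev z t (F.H a w) + F.ev z t w * F.ev z t (F.H a F.q) = 0 := by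
        have h3 : F.ev z t τ * (F.ev z t F.q * F.ev z t (F.H a w)
            + F.ev z t w * F.ev z t (F.H a F.q)) = 0 := by linarith
        rcases mul_eq_zero.1 h3 with h | h
        · exact absurd h hTau.ne'
        · exact h
      rw [hwH1] at h2
      have h4 : F.ev z t w * (F.ev z t (F.H a F.q)
          - (2 - 3 * κ ^ 2) * (F.ev z t F.q / F.ev z t F.s) * F.ev z t (F.H a F.s)) = 0 := by
        rw [← h2]; ring
      rcases mul_eq_zero.1 h4 with h | h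
      · exact absurd h hW.ne'
      · linarith
    have hgqq : F.ev z t (F.gg F.q F.q)
        = ((2 - 3 * κ ^ 2) * (F.ev z t F.q / F.ev z t F.s)) ^ 2 * F.ev z t (F.gg F.s F.s) := by
      unfold FBD.gg
      simp only [Fin.sum_univ_three, map_add, map_mul, hHq]
      ring
    have hgqw : F.ev z t (F.gg F.q w)
        = -((2 - 3 * κ ^ 2) ^ 2 * (F.ev z t F.q * F.ev z t w / F.ev z t F.s ^ 2))
          * F.ev z t (F.gg F.s F.s) := by
      unfold FBD.gg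
      simp only [Fin.sum_univ_three, map_add, map_mul, hHq, hwH1]
      field_simp
      ring
    have hgτ : F.gg τ (F.q * w) = 0 := by
      unfold FBD.gg
      simp [hτH0]
    -- the heat operator
    have hE2 : F.ev z t (F.Hop F.q) = -(2 * F.ev z t F.dM0)
        + 4 / 3 * (F.ev z t F.s * F.ev z t F.q) + 8 * F.ev z t F.c3 := by
      rw [e2]
      simp only [map_add, map_neg, map_smul, map_mul, smul_eq_mul]
    have hHop1 : F.Hop (1 : F.B) = 0 := by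
      have h := ((hPrd T F 0 0).2.2.2.1 1).2
      rwa [map_one] at h
    have hHopf : F.ev z t (F.Hop (1 - τ * (F.q * w)))
        = -(F.ev z t τ * F.ev z t (F.Hop (F.q * w))
            + F.ev z t F.q * F.ev z t w * F.ev z t (F.Hop τ)) := by
      rw [(hPrd T F 1 (τ * (F.q * w))).2.2.1, hHop1, (hPrd T F τ (F.q * w)).1, hgτ]
      simp only [smul_zero, sub_zero, zero_sub, map_neg, map_add, map_mul]
    have hHopqw : F.ev z t (F.Hop (F.q * w))
        = F.ev z t F.q * F.ev z t (F.Hop w) + F.ev z t w * F.ev z t (F.Hop F.q)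
          - 2 * F.ev z t (F.gg F.q w) := by
      rw [(hPrd T F F.q w).1]
      simp only [map_sub, map_add, map_mul, map_smul, smul_eq_mul]
    have hbia := (hBia T F hF hRF z t).2.2.1
    have hp0 : 0 ≤ F.ev z t (F.gg F.s F.s) := ((hBia T F hF hRF z t).2.2.2.2.2.2.2.2 F.s).1
    have hkey := real_key (c := F.ev z t F.c3) hS hκ hQ0 (hpq z t).2.1 (hpq z t).2.2.1
      (hpq z t).2.2.2
    have hk13 : 3 * κ ≤ 1 := by
      by_contra hcon
      push Not at hcon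
      have : (1 - 3 * κ) * F.ev z t F.s < 0 := mul_neg_of_neg_of_pos (by linarith) hS
      linarith [(hpq z t).2.1]
    have hτt : F.ev z t (F.Hop τ) = 3 * κ ^ 2 * (F.ev z t τ / t) := by
      rw [hτHop1, hτev, Real.rpow_sub_one ht.ne']
    -- t s > 1
    have hts : 1 < (t : ℝ) * F.ev z t F.s := by
      have h1 : F.ev z t F.q ≤ 2 / 3 * F.ev z t F.s ^ 2 := by
        have h2 := (hpq z t).2.2.1
        have h3 : ((1 - 3 * κ) * F.ev z t F.s) ^ 2 ≤ F.ev z t F.s ^ 2 := by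
          apply pow_le_pow_left₀ (hpq z t).2.1
          nlinarith [mul_pos hκ hS]
        linarith
      have h2 : F.ev z t τ * F.ev z t w * F.ev z t F.s ^ 2
          = ((t : ℝ) * F.ev z t F.s) ^ (3 * κ ^ 2) := by
        rw [hτev, hw1, Real.mul_rpow ht.le hS.le, mul_assoc, ← Real.rpow_natCast (F.ev z t F.s) 2,
          ← Real.rpow_add hS]
        congr 2
        push_cast
        ring
      by_contra hcon
      push Not at hcon
      have h3 : ((t : ℝ) * F.ev z t F.s) ^ (3 * κ ^ 2) ≤ 1 :=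
        Real.rpow_le_one (by positivity) hcon hσ.le
      have h4 : F.ev z t τ * F.ev z t w * F.ev z t F.q
          ≤ F.ev z t τ * F.ev z t w * (2 / 3 * F.ev z t F.s ^ 2) :=
        mul_le_mul_of_nonneg_left h1 (by positivity)
      nlinarith [h4, h2, h3, hF0]
    rw [hHopf, hHopqw, hwHop1, hE2, hgqw, hτt, hn2q]
    rw [hgqq] at hbia
    exact real_fin hS hW hTau ht hQ hp0 hκ hk13 hbia hkey hts
  intro z t
  have h := hMp2 T F hB (1 - τ * (F.q * w)) 0 t le_rfl t.2.2 hnear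
    (fun z t _ _ h0 hmin => htouch z t h0 hmin) z t (htpos t) le_rfl
  rw [map_sub, map_one, map_mul, map_mul, hτev, hw1] at h
  have ht := htpos t
  have hS := hspos z t
  have h1 : F.ev z t F.q * ((t : ℝ) ^ (3 * κ ^ 2) * F.ev z t F.s ^ (-(2 - 3 * κ ^ 2))) ≤ 1 := by
    nlinarith [h]
  have h2 : (t : ℝ) ^ (-(3 * κ ^ 2)) * F.ev z t F.s ^ (2 - 3 * κ ^ 2)
      = ((t : ℝ) ^ (3 * κ ^ 2) * F.ev z t F.s ^ (-(2 - 3 * κ ^ 2)))⁻¹ := by
    rw [Real.rpow_neg ht.le, Real.rpow_neg hS.le, mul_inv, inv_inv]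
  rw [h2, ← one_div, le_div_iff₀ (mul_pos (Real.rpow_pos_of_pos ht _)
    (Real.rpow_pos_of_pos hS _))]
  exact h1

end Pool.Agent.Helper79.RF
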